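import Mathlib

set_option autoImplicit false

namespace Pool.Agent.Results.MP_1231ed_gt.UlamSquareRoot

/-- The set `ℚ / √2` of real numbers, with the metric of the real line. -/
abbrev B : Type := {x : ℝ // ∃ q : ℚ, x = q / Real.sqrt 2}

/-- the rotation by 45 degrees, from `ℚ × ℚ` onto `ℚ/√2 × ℚ/√2` -/
noncomputable def rot : ℚ × ℚ ≃ B × B where
  toFun x := (⟨((x.1 - x.2 : ℚ) : ℝ) / Real.sqrt 2, _, rfl⟩,
    ⟨((x.1 + x.2 : ℚ) : ℝ) / Real.sqrt 2, _, rfl⟩)
  invFun y := ((y.1.2.choose + y.2.2.choose) / 2, (y.2.2.choose - y.1.2.choose) / 2)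
  left_inv x := by
    have h2 : Real.sqrt 2 ≠ 0 := by positivity
    have key : ∀ (q : ℚ) (h : ∃ r : ℚ, (q : ℝ) / Real.sqrt 2 = r / Real.sqrt 2), h.choose = q := by
      intro q h
      have h3 := h.choose_spec
      have h4 : (q : ℝ) = (h.choose : ℝ) := by
        have := congrArg (fun z => z * Real.sqrt 2) h3
        simp only [div_mul_cancel₀ _ h2] at this
        exact this
      exact_mod_cast h4.symm
    refine Prod.ext ?_ ?_
    · simp only
      rw [key, key]
      ring
    · simp only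
      rw [key, key]
      ring
  right_inv y := by
    have h1 := y.1.2.choose_spec
    have h2 := y.2.2.choose_spec
    refine Prod.ext (Subtype.ext ?_) (Subtype.ext ?_)
    · refine Eq.trans ?_ h1.symm
      push_cast
      ring
    · refine Eq.trans ?_ h2.symm
      push_cast
      ring

/-- **The square root of a metric space under the Euclidean product metric is not unique.**
There are non-isometric metric spaces `A`, `B` with isometric Euclidean squares. -/
theorem result :
    ∃ (A B : Type) (_ : MetricSpace A) (_ : MetricSpace B),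
      (∃ φ : A × A ≃ B × B, ∀ x y : A × A,
        Real.sqrt (dist (φ x).1 (φ y).1 ^ 2 + dist (φ x).2 (φ y).2 ^ 2) =
          Real.sqrt (dist x.1 y.1 ^ 2 + dist x.2 y.2 ^ 2)) ∧
      ¬ ∃ ψ : A ≃ B, ∀ x y : A, dist (ψ x) (ψ y) = dist x y := by
  refine ⟨ℚ, B, inferInstance, inferInstance, ⟨rot, fun x y => ?_⟩, ?_⟩
  · congr 1
    have h2 : Real.sqrt 2 ≠ 0 := by positivity
    have hs : Real.sqrt 2 ^ 2 = 2 := Real.sq_sqrt (by norm_num)
    simp only [Subtype.dist_eq, Rat.dist_eq, Real.dist_eq, sq_abs, rot, Equiv.coe_fn_mk]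
    push_cast
    rw [← sub_div, ← sub_div, div_pow, div_pow, hs]
    ring
  · rintro ⟨ψ, hψ⟩
    have h := hψ 1 0
    rw [Subtype.dist_eq, Rat.dist_eq, Real.dist_eq] at h
    obtain ⟨a, ha⟩ := (ψ 1).2
    obtain ⟨b, hb⟩ := (ψ 0).2
    rw [ha, hb] at h
    have h2 : Real.sqrt 2 ≠ 0 := by positivity
    have hs : Real.sqrt 2 ^ 2 = 2 := Real.sq_sqrt (by norm_num)
    have h3 : ((a - b : ℚ) : ℝ) ^ 2 = 2 := by
      have h4 : |((a : ℝ) / Real.sqrt 2 - b / Real.sqrt 2)| ^ 2 = 1 := by
        rw [h]; norm_num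
      rw [sq_abs, ← sub_div, div_pow, hs] at h4
      push_cast
      linarith
    have h5 : Irrational (Real.sqrt 2) := irrational_sqrt_two
    apply h5
    refine ⟨|a - b|, ?_⟩
    push_cast
    rw [eq_comm, Real.sqrt_eq_iff_mul_self_eq (by norm_num) (abs_nonneg _)]
    rw [← pow_two, sq_abs]
    push_cast at h3
    exact h3.symm

end Pool.Agent.Results.MP_1231ed_gt.UlamSquareRoot
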